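import Pool.Agent.Helper533.Deny.Final

set_option autoImplicit false

/-!
# Infinity sets of `𝒜`-superharmonic functions: every `𝒜`-polar `G_δ` set occurs

Full positive answer to Q1 of MP_9b58c5_an (the nonlinear weighted form of the theorem of Deny).
The definitions (`ℝⁿ`, the measure `w dx`, `H^{1,p}_loc`, the structure conditions, `𝒜`-harmonic
functions, admissible weights, `𝒜`-superharmonic functions, `𝒜`-polar sets) are those of
`Helper533/Polar/Stmt.lean` and `Helper533/Deny/Stmt.lean`.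
-/

open Set

namespace Pool.Agent.Results.MP_9b58c5_an.PolarGdeltaInfinity

open Pool.Agent.Helper533.Polar.Stmt
open Pool.Agent.Helper533

/-- Let `n ≥ 1`, `1 < p`, let `w` be a `p`-admissible weight on `ℝⁿ` and let `𝒜` satisfy the
structure conditions with constants `α ≤ β`. Then every `𝒜`-polar `G_δ` set `E ⊆ ℝⁿ` is the
infinity set `{u = ∞}` of an `𝒜`-superharmonic function `u` in `ℝⁿ`. -/
theorem result (n : ℕ) (hn : 1 ≤ n) (p α β : ℝ) (hp : 1 < p) (w : Sp n → ℝ)
    (𝒜 : Sp n → Sp n → Sp n) (hw : Deny.IsAdmissible p w) (hA : IsOperator p α β w 𝒜)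
    (E : Set (Sp n)) (hE : IsGδ E) (hpol : Deny.IsPolar 𝒜 p w E) :
    ∃ u : Sp n → EReal, Deny.IsSuperharmonic 𝒜 p w univ u ∧ {x | u x = ⊤} = E :=
  Polar.deny_theorem hn hp hw hA hE hpol

end Pool.Agent.Results.MP_9b58c5_an.PolarGdeltaInfinity
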